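import Mathlib
import Pool.Agent.N575.P17.HEE
import Pool.Agent.N969.P17G.Defs2

/-!
# The Hecke relations at `2` with signs: weighted sums over the neighbours
-/

set_option autoImplicit false
set_option linter.all false

namespace Pool.Agent.N575.P17G

open Finset
open Pool.Agent.N969.P15 (V3 ep2)
open Pool.Agent.N972.P17 (ip1 ip2 vec1 vec2)
open Pool.Agent.N969.P17G (ipx)
open Pool.Agent.N575.P15 (ext3)
open Pool.Agent.N575.P17

/-- the weighted sum over the image of a similitude -/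
theorem sum_img {S S' : Finset V3} {q q' : V3 → ℤ} {n f : ℤ} (hf : f ≠ 0)
    (hS : ∀ v, v ∈ S ↔ q v = n) (hS' : ∀ w, w ∈ S' ↔ q' w = f * n) (m g : V3 → V3)
    (A : V3 → Prop) [DecidablePred A] (h1 : ∀ v, q' (m v) = f * q v) (h2 : ∀ v, A (m v))
    (h3 : ∀ v, g (m v) = v) (h4 : ∀ w, A w → m (g w) = w) (F : V3 → ℤ) :
    ∑ w ∈ S', F w * (if A w then (1 : ℤ) else 0) = ∑ v ∈ S, F (m v) := by
  have h5 : ∑ w ∈ S', F w * (if A w then (1 : ℤ) else 0) = ∑ w ∈ S'.filter A, F w := by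
    rw [sum_filter]
    refine sum_congr rfl fun w _ => ?_
    split_ifs <;> simp
  rw [h5]
  symm
  refine sum_bij (fun v _ => m v) ?_ ?_ ?_ ?_
  · intro v hv
    rw [hS] at hv
    rw [mem_filter, hS', h1, hv]
    exact ⟨rfl, h2 v⟩
  · intro v _ w _ h
    rw [← h3 v, ← h3 w, h]
  · intro w hw
    rw [mem_filter, hS'] at hw
    refine ⟨g w, ?_, h4 w hw.2⟩
    rw [hS]
    have h6 := h1 (g w)
    rw [h4 w hw.2, hw.1] at h6
    exact (mul_left_cancel₀ hf h6).symm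
  · intro v _
    rfl

/-- twice a vector -/
def dbl (v : V3) : V3 := fun i => 2 * v i

theorem s_E2 {S S' : Finset V3} {q : V3 → ℤ} {n : ℤ} (hS : ∀ v, v ∈ S ↔ q v = n)
    (hS' : ∀ w, w ∈ S' ↔ q w = 4 * n) (hq : ∀ v, q (dbl v) = 4 * q v) (F : V3 → ℤ) :
    ∑ w ∈ S', F w * (if E2 w then (1 : ℤ) else 0) = ∑ v ∈ S, F (dbl v) := by
  refine sum_img (f := 4) (by norm_num) hS hS' dbl (fun w i => w i / 2) E2 hq
    ?_ ?_ ?_ F
  · intro v
    exact ⟨⟨_, rfl⟩, ⟨_, rfl⟩, ⟨_, rfl⟩⟩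
  · intro v
    funext i
    simp [dbl]
  · rintro w ⟨h0, h1, h2⟩
    refine ext3 ?_ ?_ ?_
    · show 2 * (w 0 / 2) = w 0
      omega
    · show 2 * (w 1 / 2) = w 1
      omega
    · show 2 * (w 2 / 2) = w 2
      omega

theorem s410 (n : ℤ) (F : V3 → ℤ) :
    ∑ w ∈ vec1 (4 * n), F w * (if A410 w then (1 : ℤ) else 0) = ∑ v ∈ vec1 n, F (m410 v) := by
  refine sum_img (f := 4) (by norm_num) (mem_vec1 n) (mem_vec1 (4 * n)) m410 g410 A410
    ?_ ?_ ?_ ?_ F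
  · intro v
    simp [m410, ip1, ip1]
    ring
  · intro v
    simp only [A410, m410, Matrix.cons_val_zero, Matrix.cons_val_one, Matrix.cons_val]
    refine ⟨?_, ?_, ?_⟩ <;> omega
  · intro v
    refine ext3 ?_ ?_ ?_ <;>
      simp only [g410, m410, Matrix.cons_val_zero, Matrix.cons_val_one, Matrix.cons_val] <;> omega
  · rintro w ⟨h0, h1, h2⟩
    refine ext3 ?_ ?_ ?_ <;>
      simp only [g410, m410, Matrix.cons_val_zero, Matrix.cons_val_one, Matrix.cons_val] <;> omega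

theorem s411 (n : ℤ) (F : V3 → ℤ) :
    ∑ w ∈ vec1 (4 * n), F w * (if A411 w then (1 : ℤ) else 0) = ∑ v ∈ vec1 n, F (m411 v) := by
  refine sum_img (f := 4) (by norm_num) (mem_vec1 n) (mem_vec1 (4 * n)) m411 g411 A411
    ?_ ?_ ?_ ?_ F
  · intro v
    simp [m411, ip1, ip1]
    ring
  · intro v
    simp only [A411, m411, Matrix.cons_val_zero, Matrix.cons_val_one, Matrix.cons_val]
    refine ⟨?_, ?_, ?_⟩ <;> omega
  · intro v
    refine ext3 ?_ ?_ ?_ <;>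
      simp only [g411, m411, Matrix.cons_val_zero, Matrix.cons_val_one, Matrix.cons_val] <;> omega
  · rintro w ⟨h0, h1, h2⟩
    refine ext3 ?_ ?_ ?_ <;>
      simp only [g411, m411, Matrix.cons_val_zero, Matrix.cons_val_one, Matrix.cons_val] <;> omega

theorem s412 (n : ℤ) (F : V3 → ℤ) :
    ∑ w ∈ vec1 (4 * n), F w * (if A412 w then (1 : ℤ) else 0) = ∑ v ∈ vec2 n, F (m412 v) := by
  refine sum_img (f := 4) (by norm_num) (mem_vec2 n) (mem_vec1 (4 * n)) m412 g412 A412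
    ?_ ?_ ?_ ?_ F
  · intro v
    simp [m412, ip2, ip1]
    ring
  · intro v
    simp only [A412, m412, Matrix.cons_val_zero, Matrix.cons_val_one, Matrix.cons_val]
    refine ⟨?_, ?_, ?_⟩ <;> omega
  · intro v
    refine ext3 ?_ ?_ ?_ <;>
      simp only [g412, m412, Matrix.cons_val_zero, Matrix.cons_val_one, Matrix.cons_val] <;> omega
  · rintro w ⟨h0, h1, h2⟩
    refine ext3 ?_ ?_ ?_ <;>
      simp only [g412, m412, Matrix.cons_val_zero, Matrix.cons_val_one, Matrix.cons_val] <;> omega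

theorem s420 (n : ℤ) (F : V3 → ℤ) :
    ∑ w ∈ vec2 (4 * n), F w * (if A420 w then (1 : ℤ) else 0) = ∑ v ∈ vec1 n, F (m420 v) := by
  refine sum_img (f := 4) (by norm_num) (mem_vec1 n) (mem_vec2 (4 * n)) m420 g420 A420
    ?_ ?_ ?_ ?_ F
  · intro v
    simp [m420, ip1, ip2]
    ring
  · intro v
    simp only [A420, m420, Matrix.cons_val_zero, Matrix.cons_val_one, Matrix.cons_val]
    refine ⟨?_, ?_, ?_⟩ <;> omega
  · intro v
    refine ext3 ?_ ?_ ?_ <;>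
      simp only [g420, m420, Matrix.cons_val_zero, Matrix.cons_val_one, Matrix.cons_val] <;> omega
  · rintro w ⟨h0, h1, h2⟩
    refine ext3 ?_ ?_ ?_ <;>
      simp only [g420, m420, Matrix.cons_val_zero, Matrix.cons_val_one, Matrix.cons_val] <;> omega

theorem s421 (n : ℤ) (F : V3 → ℤ) :
    ∑ w ∈ vec2 (4 * n), F w * (if A421 w then (1 : ℤ) else 0) = ∑ v ∈ vec1 n, F (m421 v) := by
  refine sum_img (f := 4) (by norm_num) (mem_vec1 n) (mem_vec2 (4 * n)) m421 g421 A421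
    ?_ ?_ ?_ ?_ F
  · intro v
    simp [m421, ip1, ip2]
    ring
  · intro v
    simp only [A421, m421, Matrix.cons_val_zero, Matrix.cons_val_one, Matrix.cons_val]
    refine ⟨?_, ?_, ?_⟩ <;> omega
  · intro v
    refine ext3 ?_ ?_ ?_ <;>
      simp only [g421, m421, Matrix.cons_val_zero, Matrix.cons_val_one, Matrix.cons_val] <;> omega
  · rintro w ⟨h0, h1, h2⟩
    refine ext3 ?_ ?_ ?_ <;>
      simp only [g421, m421, Matrix.cons_val_zero, Matrix.cons_val_one, Matrix.cons_val] <;> omega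

theorem s422 (n : ℤ) (F : V3 → ℤ) :
    ∑ w ∈ vec2 (4 * n), F w * (if A422 w then (1 : ℤ) else 0) = ∑ v ∈ vec1 n, F (m422 v) := by
  refine sum_img (f := 4) (by norm_num) (mem_vec1 n) (mem_vec2 (4 * n)) m422 g422 A422
    ?_ ?_ ?_ ?_ F
  · intro v
    simp [m422, ip1, ip2]
    ring
  · intro v
    simp only [A422, m422, Matrix.cons_val_zero, Matrix.cons_val_one, Matrix.cons_val]
    refine ⟨?_, ?_, ?_⟩ <;> omega
  · intro v
    refine ext3 ?_ ?_ ?_ <;>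
      simp only [g422, m422, Matrix.cons_val_zero, Matrix.cons_val_one, Matrix.cons_val] <;> omega
  · rintro w ⟨h0, h1, h2⟩
    refine ext3 ?_ ?_ ?_ <;>
      simp only [g422, m422, Matrix.cons_val_zero, Matrix.cons_val_one, Matrix.cons_val] <;> omega

/-- odd norms, first lattice -/
theorem w4_1 {n : ℕ} (hn : n % 4 = 3) (F : V3 → ℤ) :
    ∑ v ∈ vec1 n, F (m410 v) + ∑ v ∈ vec1 n, F (m411 v) + ∑ v ∈ vec2 n, F (m412 v) =
      ∑ w ∈ vec1 (4 * n), F w + ep2 n * ∑ v ∈ vec1 n, F (dbl v) := by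
  have h : ∑ w ∈ vec1 (4 * n), F w * ((if A410 w then (1 : ℤ) else 0) + (if A411 w then (1 : ℤ) else 0) + (if A412 w then (1 : ℤ) else 0)) =
      ∑ w ∈ vec1 (4 * n), F w * (1 + ep2 n * (if E2 w then 1 else 0)) :=
    sum_congr rfl fun w hw => by rw [pt4_1 hn ((mem_vec1 _ w).1 hw)]
  simp only [mul_add, sum_add_distrib, mul_one] at h
  rw [s410, s411, s412] at h
  rw [h]
  congr 1
  rw [← s_E2 (mem_vec1 n) (mem_vec1 (4 * n)) (fun v => by unfold ip1 dbl; ring) F, mul_sum]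
  exact sum_congr rfl fun w _ => by ring

/-- odd norms, second lattice -/
theorem w4_2 {n : ℕ} (hn : n % 4 = 3) (F : V3 → ℤ) :
    ∑ v ∈ vec1 n, F (m420 v) + ∑ v ∈ vec1 n, F (m421 v) + ∑ v ∈ vec1 n, F (m422 v) =
      ∑ w ∈ vec2 (4 * n), F w + ep2 n * ∑ v ∈ vec2 n, F (dbl v) := by
  have h : ∑ w ∈ vec2 (4 * n), F w * ((if A420 w then (1 : ℤ) else 0) + (if A421 w then (1 : ℤ) else 0) + (if A422 w then (1 : ℤ) else 0)) =
      ∑ w ∈ vec2 (4 * n), F w * (1 + ep2 n * (if E2 w then 1 else 0)) :=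
    sum_congr rfl fun w hw => by rw [pt4_2 hn ((mem_vec2 _ w).1 hw)]
  simp only [mul_add, sum_add_distrib, mul_one] at h
  rw [s420, s421, s422] at h
  rw [h]
  congr 1
  rw [← s_E2 (mem_vec2 n) (mem_vec2 (4 * n)) (fun v => by unfold ip2 dbl; ring) F, mul_sum]
  exact sum_congr rfl fun w _ => by ring

/-- even norms, first lattice -/
theorem w4e_1 {n : ℤ} (hn : n % 16 = 4 ∨ n % 16 = 8) (F : V3 → ℤ) :
    ∑ v ∈ vec1 n, F (m410 v) + ∑ v ∈ vec1 n, F (m411 v) + ∑ v ∈ vec2 n, F (m412 v) =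
      ∑ w ∈ vec1 (4 * n), F w := by
  have h : ∑ w ∈ vec1 (4 * n), F w * ((if A410 w then (1 : ℤ) else 0) + (if A411 w then (1 : ℤ) else 0) + (if A412 w then (1 : ℤ) else 0)) =
      ∑ w ∈ vec1 (4 * n), F w * 1 :=
    sum_congr rfl fun w hw => by rw [pt4e_1 hn ((mem_vec1 _ w).1 hw)]
  simp only [mul_add, sum_add_distrib, mul_one] at h
  rw [s410, s411, s412] at h
  exact h

/-- even norms, second lattice -/
theorem w4e_2 {n : ℤ} (hn : n % 16 = 4 ∨ n % 16 = 8) (F : V3 → ℤ) :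
    ∑ v ∈ vec1 n, F (m420 v) + ∑ v ∈ vec1 n, F (m421 v) + ∑ v ∈ vec1 n, F (m422 v) =
      ∑ w ∈ vec2 (4 * n), F w := by
  have h : ∑ w ∈ vec2 (4 * n), F w * ((if A420 w then (1 : ℤ) else 0) + (if A421 w then (1 : ℤ) else 0) + (if A422 w then (1 : ℤ) else 0)) =
      ∑ w ∈ vec2 (4 * n), F w * 1 :=
    sum_congr rfl fun w hw => by rw [pt4e_2 hn ((mem_vec2 _ w).1 hw)]
  simp only [mul_add, sum_add_distrib, mul_one] at h
  rw [s420, s421, s422] at h
  exact h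

/-! ### the rotations -/

/-- the rotation of the first lattice -/
def r1 (v : V3) : V3 := ![-v 0 + v 2, -v 1 + v 2, v 2]

/-- a rotation of the second lattice -/
def ga (v : V3) : V3 := ![-v 0 + v 1, v 1, v 1 - v 2]

/-- a rotation of the second lattice -/
def de (v : V3) : V3 := ![-v 0, -v 2, -v 1]

/-- reindexing by an involution preserving the form -/
theorem sum_inv {S : Finset V3} {q : V3 → ℤ} {n : ℤ} (hS : ∀ v, v ∈ S ↔ q v = n) (r : V3 → V3)
    (h1 : ∀ v, q (r v) = q v) (h2 : ∀ v, r (r v) = v) (F : V3 → ℤ) :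
    ∑ v ∈ S, F (r v) = ∑ v ∈ S, F v := by
  refine sum_bij (fun v _ => r v) ?_ ?_ ?_ ?_
  · intro v hv
    rw [hS] at hv ⊢
    rw [h1, hv]
  · intro v _ w _ h
    rw [← h2 v, ← h2 w, h]
  · intro w hw
    refine ⟨r w, ?_, h2 w⟩
    rw [hS] at hw ⊢
    rw [h1, hw]
  · intro v _
    rfl

theorem sum_r1 (n : ℤ) (F : V3 → ℤ) : ∑ v ∈ vec1 n, F (r1 v) = ∑ v ∈ vec1 n, F v := by
  refine sum_inv (q := fun v => ip1 v v) (mem_vec1 n) r1 ?_ ?_ F
  · intro v
    simp [r1, ip1]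
    ring
  · intro v
    refine ext3 ?_ ?_ ?_ <;>
      simp only [r1, Matrix.cons_val_zero, Matrix.cons_val_one, Matrix.cons_val] <;> ring

theorem sum_ga (n : ℤ) (F : V3 → ℤ) : ∑ v ∈ vec2 n, F (ga v) = ∑ v ∈ vec2 n, F v := by
  refine sum_inv (q := fun v => ip2 v v) (mem_vec2 n) ga ?_ ?_ F
  · intro v
    simp [ga, ip2]
    ring
  · intro v
    refine ext3 ?_ ?_ ?_ <;>
      simp only [ga, Matrix.cons_val_zero, Matrix.cons_val_one, Matrix.cons_val] <;> ring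

theorem sum_de (n : ℤ) (F : V3 → ℤ) : ∑ v ∈ vec2 n, F (de v) = ∑ v ∈ vec2 n, F v := by
  refine sum_inv (q := fun v => ip2 v v) (mem_vec2 n) de ?_ ?_ F
  · intro v
    simp [de, ip2]
    ring
  · intro v
    refine ext3 ?_ ?_ ?_ <;>
      simp only [de, Matrix.cons_val_zero, Matrix.cons_val_one, Matrix.cons_val] <;> ring

theorem ip_410 (v u : V3) : ip1 v (m410 u) = ip1 (r1 v) (m411 (r1 u)) := by
  simp [m410, m411, r1, ip1]
  ring

theorem ip_411 (v u : V3) : ip1 v (m411 u) = - 2 * ip1 v u + 34 * (v 1 * u 1) := by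
  simp [m411, ip1]
  ring

theorem ip_412 (v w : V3) : ip1 v (m412 w) = ipx v (de w) := by
  simp [m412, de, ip1, ipx]
  ring

theorem ip_422 (v u : V3) : ip2 v (m422 u) = ipx u v := by
  simp [m422, ip2, ipx]
  ring

theorem ip_421 (v u : V3) : ip2 v (m421 u) = ipx u (de v) := by
  simp [m421, ip2, ipx, de]
  ring

theorem ip_420 (v u : V3) : ip2 v (m420 u) = ipx u (ga v) := by
  simp [m420, ip2, ipx, ga]
  ring

/-- reduction of the relations to pointwise identities, first lattice -/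
theorem red_1 {n : ℤ} (f1 f2 : ℤ → ℤ) (c : ℤ)
    (H1 : ∀ v ∈ vec1 n, ∀ u ∈ vec1 n,
      f2 (n - ip1 v u + 17 * (v 1 * u 1)) = c * f1 ((n + ip1 v u) / 2)) :
    ∑ v ∈ vec1 n, ∑ u ∈ vec1 n, f2 ((2 * n + ip1 v (m410 u)) / 2) =
      c * ∑ v ∈ vec1 n, ∑ u ∈ vec1 n, f1 ((n + ip1 v u) / 2) ∧
    ∑ v ∈ vec1 n, ∑ u ∈ vec1 n, f2 ((2 * n + ip1 v (m411 u)) / 2) =
      c * ∑ v ∈ vec1 n, ∑ u ∈ vec1 n, f1 ((n + ip1 v u) / 2) := by
  have h2 : ∑ v ∈ vec1 n, ∑ u ∈ vec1 n, f2 ((2 * n + ip1 v (m411 u)) / 2) =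
      c * ∑ v ∈ vec1 n, ∑ u ∈ vec1 n, f1 ((n + ip1 v u) / 2) := by
    rw [mul_sum]
    refine sum_congr rfl fun v hv => ?_
    rw [mul_sum]
    refine sum_congr rfl fun u hu => ?_
    rw [← H1 v hv u hu, ip_411]
    congr 1
    have : 2 * n + (-2 * ip1 v u + 34 * (v 1 * u 1)) =
      (n - ip1 v u + 17 * (v 1 * u 1)) * 2 := by ring
    rw [this]
    exact Int.mul_ediv_cancel _ (by norm_num)
  refine ⟨?_, h2⟩
  rw [← h2, ← sum_r1 n (fun v => ∑ u ∈ vec1 n, f2 ((2 * n + ip1 v (m411 u)) / 2))]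
  refine sum_congr rfl fun v _ => ?_
  rw [← sum_r1 n (fun u => f2 ((2 * n + ip1 (r1 v) (m411 u)) / 2))]
  refine sum_congr rfl fun u _ => ?_
  rw [ip_410]

end Pool.Agent.N575.P17G
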