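import Mathlib
import Pool.Agent.N575.P17G.Sum

/-!
# The Hecke relations at `2` with signs: the odd primes
-/

set_option autoImplicit false
set_option linter.all false

namespace Pool.Agent.N575.P17G

open Finset
open Pool.Agent.N969.P15 (V3 ep2)
open Pool.Agent.N972.P17 (ip1 ip2 vec1 vec2)
open Pool.Agent.N969.P17G (ipx sgp)
open Pool.Agent.N575.P15 (ext3)
open Pool.Agent.N575.P17

theorem jc {p : ℕ} {a b : ℤ} (h : (p : ℤ) ∣ a - b) : jacobiSym a p = jacobiSym b p := by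
  rw [jacobiSym.mod_left a, jacobiSym.mod_left b,
    Int.emod_eq_emod_iff_emod_sub_eq_zero.2 (Int.emod_eq_zero_of_dvd h)]

theorem jsq {p : ℕ} (hp : p.Prime) {a : ℤ} (h : ¬ (p : ℤ) ∣ a) :
    jacobiSym a p * jacobiSym a p = 1 := by
  have : IsCoprime a (p : ℤ) := ((Nat.prime_iff_prime_int.1 hp).coprime_iff_not_dvd.2 h).symm
  rw [← sq]
  exact jacobiSym.sq_one (Int.isCoprime_iff_gcd_eq_one.1 this)

theorem pdvd {p : ℕ} (hp : p.Prime) {a b : ℤ} (h : (p : ℤ) ∣ a * b) :
    (p : ℤ) ∣ a ∨ (p : ℤ) ∣ b := (Nat.prime_iff_prime_int.1 hp).dvd_mul.1 h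

theorem psq {p : ℕ} (hp : p.Prime) {a : ℤ} (h : (p : ℤ) ∣ a ^ 2) :
    (p : ℤ) ∣ a := (Nat.prime_iff_prime_int.1 hp).dvd_of_dvd_pow h

theorem ndvd {p : ℕ} (hp : p.Prime) {q : ℕ} (hq : q.Prime) (h : p ≠ q) : ¬ (p : ℤ) ∣ (q : ℤ) := by
  intro hh
  rw [Int.natCast_dvd_natCast] at hh
  exact h ((Nat.prime_dvd_prime_iff_eq hp hq).1 hh)

/-- proportionality modulo `p` of orthogonal isotropic vectors -/
theorem prop {p : ℕ} (hp : p.Prime) (h2 : p ≠ 2) (h17 : p ≠ 17) {v w : V3}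
    (hv : (p : ℤ) ∣ ip1 v v) (hw : (p : ℤ) ∣ ip1 w w) (hb : (p : ℤ) ∣ ip1 v w)
    (h0 : ∃ i, ¬ (p : ℤ) ∣ v i) : ∃ (s : ℤ) (z : V3), ∀ i, w i = s * v i + p * z i := by
  obtain ⟨j, hj⟩ := h0
  have hpp : Prime (p : ℤ) := Nat.prime_iff_prime_int.1 hp
  have hc : ¬ (p : ℤ) ∣ (2 : ℤ) := by exact_mod_cast ndvd hp Nat.prime_two h2
  have hd : ¬ (p : ℤ) ∣ (17 : ℤ) := by exact_mod_cast ndvd hp (by norm_num) h17
  have h34 : ∀ x : ℤ, (p : ℤ) ∣ 1156 * x ^ 2 → (p : ℤ) ∣ x := by
    intro x hx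
    have e : 1156 * x ^ 2 = (2 * (17 * x)) ^ 2 := by ring
    rw [e] at hx
    rcases pdvd hp (psq hp hx) with h | h
    · exact absurd h hc
    · rcases pdvd hp h with h | h
      · exact absurd h hd
      · exact h
  have c0 : (p : ℤ) ∣ v 1 * w 2 - v 2 * w 1 := by
    apply h34
    have e : 1156 * (v 1 * w 2 - v 2 * w 1) ^ 2 =
      ip1 v v * (ip1 w w * 7 - (7 * w 0 - 3 * w 1 - 2 * w 2) ^ 2) +
      ip1 w w * (-(7 * v 0 - 3 * v 1 - 2 * v 2) ^ 2) +
      ip1 v w * (2 * (7 * v 0 - 3 * v 1 - 2 * v 2) * (7 * w 0 - 3 * w 1 - 2 * w 2) -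
        7 * ip1 v w) := by
      unfold ip1; ring
    rw [e]
    exact dvd_add (dvd_add (hv.mul_right _) (hw.mul_right _)) (hb.mul_right _)
  have c1 : (p : ℤ) ∣ v 2 * w 0 - v 0 * w 2 := by
    apply h34
    have e : 1156 * (v 2 * w 0 - v 0 * w 2) ^ 2 =
      ip1 v v * (ip1 w w * 11 - (-3 * w 0 + 11 * w 1 - 4 * w 2) ^ 2) +
      ip1 w w * (-(-3 * v 0 + 11 * v 1 - 4 * v 2) ^ 2) +
      ip1 v w * (2 * (-3 * v 0 + 11 * v 1 - 4 * v 2) * (-3 * w 0 + 11 * w 1 - 4 * w 2) -
        11 * ip1 v w) := by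
      unfold ip1; ring
    rw [e]
    exact dvd_add (dvd_add (hv.mul_right _) (hw.mul_right _)) (hb.mul_right _)
  have c2 : (p : ℤ) ∣ v 0 * w 1 - v 1 * w 0 := by
    apply h34
    have e : 1156 * (v 0 * w 1 - v 1 * w 0) ^ 2 =
      ip1 v v * (ip1 w w * 20 - (-2 * w 0 - 4 * w 1 + 20 * w 2) ^ 2) +
      ip1 w w * (-(-2 * v 0 - 4 * v 1 + 20 * v 2) ^ 2) +
      ip1 v w * (2 * (-2 * v 0 - 4 * v 1 + 20 * v 2) * (-2 * w 0 - 4 * w 1 + 20 * w 2) -
        20 * ip1 v w) := by
      unfold ip1; ring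
    rw [e]
    exact dvd_add (dvd_add (hv.mul_right _) (hw.mul_right _)) (hb.mul_right _)
  have hall : ∀ i, (p : ℤ) ∣ v j * w i - w j * v i := by
    intro i
    fin_cases j <;> fin_cases i
    · show (p : ℤ) ∣ v 0 * w 0 - w 0 * v 0
      exact ⟨0, by ring⟩
    · show (p : ℤ) ∣ v 0 * w 1 - w 0 * v 1
      have : v 0 * w 1 - w 0 * v 1 = v 0 * w 1 - v 1 * w 0 := by ring
      rw [this]; exact c2
    · show (p : ℤ) ∣ v 0 * w 2 - w 0 * v 2
      have : v 0 * w 2 - w 0 * v 2 = -(v 2 * w 0 - v 0 * w 2) := by ring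
      rw [this]; exact c1.neg_right
    · show (p : ℤ) ∣ v 1 * w 0 - w 1 * v 0
      have : v 1 * w 0 - w 1 * v 0 = -(v 0 * w 1 - v 1 * w 0) := by ring
      rw [this]; exact c2.neg_right
    · show (p : ℤ) ∣ v 1 * w 1 - w 1 * v 1
      exact ⟨0, by ring⟩
    · show (p : ℤ) ∣ v 1 * w 2 - w 1 * v 2
      have : v 1 * w 2 - w 1 * v 2 = v 1 * w 2 - v 2 * w 1 := by ring
      rw [this]; exact c0
    · show (p : ℤ) ∣ v 2 * w 0 - w 2 * v 0
      have : v 2 * w 0 - w 2 * v 0 = v 2 * w 0 - v 0 * w 2 := by ring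
      rw [this]; exact c1
    · show (p : ℤ) ∣ v 2 * w 1 - w 2 * v 1
      have : v 2 * w 1 - w 2 * v 1 = -(v 1 * w 2 - v 2 * w 1) := by ring
      rw [this]; exact c0.neg_right
    · show (p : ℤ) ∣ v 2 * w 2 - w 2 * v 2
      exact ⟨0, by ring⟩
  obtain ⟨x, y, hxy⟩ : IsCoprime (v j) (p : ℤ) := (hpp.coprime_iff_not_dvd.2 hj).symm
  have hd : ∀ i, (p : ℤ) ∣ w i - (w j * x) * v i := by
    intro i
    have e : w i - (w j * x) * v i = x * (v j * w i - w j * v i) + p * (y * w i) := by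
      linear_combination (-w i) * hxy
    rw [e]
    exact dvd_add ((hall i).mul_left _) (dvd_mul_right _ _)
  choose z hz using hd
  exact ⟨w j * x, z, fun i => by linear_combination hz i⟩

/-- the sign of a pair of proportional vectors -/
theorem val {p : ℕ} (hp : p.Prime) (h2 : p ≠ 2) {n : ℕ} (hn : p ∣ n) (hn2 : ¬ p ^ 2 ∣ n) {k : ℕ}
    (hk : ¬ (p : ℤ) ∣ (k : ℤ)) {v w z : V3} {s T : ℤ}
    (hv : ip1 v v = n) (hw : ip1 w w = (k : ℤ) ^ 2 * n)
    (hs : ∀ i, w i = s * v i + p * z i) (hT : 2 * T = k * n + ip1 v w) :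
    ¬ (p : ℤ) ∣ s ∧ (p : ℤ) ∣ T ∧ sgp k n p T = jacobiSym s p := by
  have hpp : Prime (p : ℤ) := Nat.prime_iff_prime_int.1 hp
  have hp0 : (p : ℤ) ≠ 0 := hpp.ne_zero
  have hc : ¬ (p : ℤ) ∣ (2 : ℤ) := by exact_mod_cast ndvd hp Nat.prime_two h2
  obtain ⟨n', rfl⟩ := hn
  have hn' : ¬ (p : ℤ) ∣ (n' : ℤ) := by
    intro h
    rw [Int.natCast_dvd_natCast] at h
    exact hn2 (by rw [sq]; exact Nat.mul_dvd_mul_left p h)
  push_cast at hv hw hT
  have e1 : ip1 w w = s ^ 2 * ip1 v v + 2 * s * p * ip1 v z + p ^ 2 * ip1 z z := by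
    unfold ip1
    rw [hs 0, hs 1, hs 2]
    ring
  have e2 : ip1 v w = s * ip1 v v + p * ip1 v z := by
    unfold ip1
    rw [hs 0, hs 1, hs 2]
    ring
  rw [hw, hv] at e1
  rw [hv] at e2
  rw [e2] at hT
  have e3 : (k : ℤ) ^ 2 * n' = s ^ 2 * n' + 2 * s * ip1 v z + p * ip1 z z := by
    apply mul_left_cancel₀ hp0
    linear_combination e1
  have hs0 : ¬ (p : ℤ) ∣ s := by
    intro h
    have : (p : ℤ) ∣ (k : ℤ) ^ 2 * n' := by
      rw [e3]
      refine dvd_add (dvd_add ?_ ?_) (dvd_mul_right _ _)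
      · exact (dvd_pow h (by norm_num)).mul_right _
      · exact (h.mul_left 2).mul_right _
    rcases pdvd hp this with h' | h'
    · exact hk (psq hp h')
    · exact hn' h'
  have hpT : (p : ℤ) ∣ T := by
    have : (p : ℤ) ∣ 2 * T := by
      rw [hT]
      exact ⟨k * n' + s * n' + ip1 v z, by ring⟩
    rcases pdvd hp this with h | h
    · exact absurd h hc
    · exact h
  obtain ⟨T', rfl⟩ := hpT
  have e4 : 2 * T' = (k + s) * n' + ip1 v z := by
    apply mul_left_cancel₀ hp0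
    linear_combination hT
  have e5 : 4 * s * T' = (k + s) ^ 2 * n' - p * ip1 z z := by
    linear_combination 2 * s * e4 - e3
  have hdiv : ((p : ℤ) * T') / p = T' := Int.mul_ediv_cancel_left _ hp0
  have hnd : (p * n' / p : ℕ) = n' := Nat.mul_div_cancel_left _ hp.pos
  refine ⟨hs0, dvd_mul_right _ _, ?_⟩
  unfold sgp
  rw [if_pos (dvd_mul_right _ _), hdiv, hnd]
  split_ifs with h
  · have h5 : (p : ℤ) ∣ (k + s) ^ 2 * n' := by
      have : (k + s) ^ 2 * (n' : ℤ) = 4 * s * T' + p * ip1 z z := by linear_combination -e5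
      rw [this]
      exact dvd_add (h.mul_left _) (dvd_mul_right _ _)
    rcases pdvd hp h5 with h' | h'
    · have h6 := psq hp h'
      refine jc ?_
      have : -(k : ℤ) - s = -(k + s) := by ring
      rw [this]
      exact h6.neg_right
    · exact absurd h' hn'
  · have h5 : jacobiSym (4 * s * T' * n') p = jacobiSym (((k + s) * n') ^ 2) p := by
      apply jc
      refine ⟨-(ip1 z z * n'), ?_⟩
      linear_combination n' * e5
    have h6 : ¬ (p : ℤ) ∣ (k + s) * n' := by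
      intro h7
      have h8 : (p : ℤ) ∣ 4 * s * T' := by
        have : 4 * s * T' = (k + s) * ((k + s) * n') - p * ip1 z z := by linear_combination e5
        rw [this]
        exact dvd_sub (h7.mul_left _) (dvd_mul_right _ _)
      rcases pdvd hp h8 with h9 | h9
      · rcases pdvd hp h9 with h10 | h10
        · have : (4 : ℤ) = 2 ^ 2 := by norm_num
          rw [this] at h10
          exact hc (psq hp h10)
        · exact hs0 h10
      · exact h h9
    have h7 : jacobiSym (((k + s) * n') ^ 2) p = 1 := by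
      rw [sq, jacobiSym.mul_left, jsq hp h6]
    have h8 : 4 * s * T' * n' = 2 * 2 * (s * (T' * n')) := by ring
    rw [h7, h8, jacobiSym.mul_left, jacobiSym.mul_left 2 2, jsq hp hc, one_mul,
      jacobiSym.mul_left] at h5
    have h9 := jsq hp hs0
    linear_combination jacobiSym s p * h5 - jacobiSym (T' * n') p * h9

theorem isot {p : ℕ} (hp : p.Prime) {n : ℕ} (hn2 : ¬ p ^ 2 ∣ n) {v : V3} (hv : ip1 v v = n) :
    ∃ i, ¬ (p : ℤ) ∣ v i := by
  by_contra h
  push Not at h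
  obtain ⟨x, hx⟩ := h 0
  obtain ⟨y, hy⟩ := h 1
  obtain ⟨z, hz⟩ := h 2
  apply hn2
  have : ((p ^ 2 : ℕ) : ℤ) ∣ (n : ℤ) := by
    rw [← hv]
    unfold ip1
    rw [hx, hy, hz]
    push_cast
    exact ⟨7 * (x * x) + 11 * (y * y) + 20 * (z * z) - 3 * (x * y + y * x) -
      2 * (x * z + z * x) - 4 * (y * z + z * y), by ring⟩
  exact_mod_cast this

/-- `-34` is a square modulo `p` if there is an isotropic vector orthogonal to `(2, 4, 1)` -/
theorem m34 {p : ℕ} (hp : p.Prime) (h2 : p ≠ 2) (h17 : p ≠ 17) {v : V3} (hv : (p : ℤ) ∣ ip1 v v)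
    (h0 : ∃ i, ¬ (p : ℤ) ∣ v i) (h1 : (p : ℤ) ∣ v 1) : jacobiSym (-2) p = jacobiSym 17 p := by
  have hc : ¬ (p : ℤ) ∣ (2 : ℤ) := by exact_mod_cast ndvd hp Nat.prime_two h2
  have e : (p : ℤ) ∣ (7 * v 0 - 2 * v 2) ^ 2 + 136 * v 2 ^ 2 := by
    have : (7 * v 0 - 2 * v 2) ^ 2 + 136 * v 2 ^ 2 = 7 * ip1 v v +
      v 1 * (-77 * v 1 + 42 * v 0 + 56 * v 2) := by
      unfold ip1; ring
    rw [this]
    exact dvd_add (hv.mul_left _) (h1.mul_right _)
  by_cases h3 : (p : ℤ) ∣ v 2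
  · have h4 : (p : ℤ) ∣ 7 * v 0 := by
      apply psq hp
      have : (7 * v 0) ^ 2 = (7 * v 0 - 2 * v 2) ^ 2 + 136 * v 2 ^ 2 +
        v 2 * (28 * v 0 - 140 * v 2) := by ring
      rw [this]
      exact dvd_add e (h3.mul_right _)
    have h5 : ¬ (p : ℤ) ∣ v 0 := by
      intro h6
      obtain ⟨i, hi⟩ := h0
      apply hi
      fin_cases i
      · exact h6
      · exact h1
      · exact h3
    have h7 : p = 7 := by
      rcases pdvd hp h4 with h6 | h6
      · by_contra h8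
        exact ndvd hp (q := 7) (by norm_num) h8 (by exact_mod_cast h6)
      · exact absurd h6 h5
    subst h7
    norm_num
  · have h4 : jacobiSym ((7 * v 0 - 2 * v 2) ^ 2) p = jacobiSym (-136 * v 2 ^ 2) p := by
      apply jc
      have : (7 * v 0 - 2 * v 2) ^ 2 - -136 * v 2 ^ 2 =
        (7 * v 0 - 2 * v 2) ^ 2 + 136 * v 2 ^ 2 := by ring
      rw [this]
      exact e
    have hd : ¬ (p : ℤ) ∣ (17 : ℤ) := by exact_mod_cast ndvd hp (by norm_num) h17
    have h5 : ¬ (p : ℤ) ∣ 7 * v 0 - 2 * v 2 := by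
      intro h6
      have h7 : (p : ℤ) ∣ (2 * (2 * (2 * (17 * v 2 ^ 2)))) := by
        have : (2 * (2 * (2 * (17 * v 2 ^ 2)))) = (7 * v 0 - 2 * v 2) ^ 2 + 136 * v 2 ^ 2 -
          (7 * v 0 - 2 * v 2) * (7 * v 0 - 2 * v 2) := by ring
        rw [this]
        exact dvd_sub e (h6.mul_right _)
      rcases pdvd hp h7 with h | h
      · exact hc h
      rcases pdvd hp h with h | h
      · exact hc h
      rcases pdvd hp h with h | h
      · exact hc h
      rcases pdvd hp h with h | h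
      · exact hd h
      exact h3 (psq hp h)
    rw [sq, jacobiSym.mul_left, jsq hp h5] at h4
    have h6 : -136 * v 2 ^ 2 = (-2) * 17 * (2 * 2) * (v 2 * v 2) := by ring
    rw [h6, jacobiSym.mul_left, jacobiSym.mul_left, jacobiSym.mul_left (-2),
      jacobiSym.mul_left 2 2, jacobiSym.mul_left (v 2), jsq hp hc, jsq hp h3] at h4
    have h7 := jsq hp hd
    linear_combination (-jacobiSym 17 p) * h4 - jacobiSym (-2) p * h7

/-- the sign of the neighbour at an odd prime -/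
theorem H1p {p : ℕ} (hp : p.Prime) (h2 : p ≠ 2) (h17 : p ≠ 17) {n : ℕ} (hn : p ∣ n)
    (hn2 : ¬ p ^ 2 ∣ n) {v u : V3} {T : ℤ} (hv : ip1 v v = n) (hu : ip1 u u = n)
    (hT : 2 * T = n + ip1 v u) :
    sgp 2 n p (n - ip1 v u + 17 * (v 1 * u 1)) = jacobiSym 17 p * sgp 1 n p T := by
  have hpp : Prime (p : ℤ) := Nat.prime_iff_prime_int.1 hp
  have hc : ¬ (p : ℤ) ∣ (2 : ℤ) := by exact_mod_cast ndvd hp Nat.prime_two h2
  have hd : ¬ (p : ℤ) ∣ (17 : ℤ) := by exact_mod_cast ndvd hp (by norm_num) h17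
  have hnp : (p : ℤ) ∣ (n : ℤ) := by exact_mod_cast hn
  have h0 := isot hp hn2 hv
  have h1 : ¬ (p : ℤ) ∣ ((1 : ℕ) : ℤ) := by
    intro h
    have := Int.natCast_dvd_natCast.1 h
    exact hp.one_lt.ne' (Nat.dvd_one.1 this)
  have hc' : ¬ (p : ℤ) ∣ ((2 : ℕ) : ℤ) := by exact_mod_cast hc
  obtain ⟨w, hw⟩ : ∃ w : V3, w = m411 u := ⟨_, rfl⟩
  have hww : ip1 w w = ((2 : ℕ) : ℤ) ^ 2 * n := by
    rw [hw, ← hu]
    simp [m411, ip1]
    ring
  have hvw : ip1 v w = -2 * ip1 v u + 34 * (v 1 * u 1) := by rw [hw, ip_411]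
  have hwn : (p : ℤ) ∣ ip1 w w := by rw [hww]; exact hnp.mul_left _
  have hT2 : 2 * (n - ip1 v u + 17 * (v 1 * u 1)) = ((2 : ℕ) : ℤ) * n + ip1 v w := by
    rw [hvw]; push_cast; ring
  have w0 : w 0 = -2 * u 0 + 2 * u 1 := by rw [hw]; simp [m411]
  have w1 : w 1 = -2 * u 1 + 4 * u 1 := by rw [hw]; simp [m411]; ring
  have w2 : w 2 = -2 * u 2 + u 1 := by rw [hw]; simp [m411]; ring
  by_cases hA : (p : ℤ) ∣ T
  · -- `u` and `v` are proportional
    have hb : (p : ℤ) ∣ ip1 v u := by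
      have : ip1 v u = T * 2 - n := by linear_combination -hT
      rw [this]
      exact dvd_sub (hA.mul_right _) hnp
    obtain ⟨s, z, hs⟩ := prop hp h2 h17 (hv ▸ hnp) (hu ▸ hnp) hb h0
    obtain ⟨hs0, -, hval⟩ := val hp h2 hn hn2 h1 (s := s) (z := z) (T := T) hv
      (by rw [hu]; push_cast; ring) hs (by push_cast; linear_combination hT)
    rw [hval]
    by_cases hB : (p : ℤ) ∣ v 1
    · have hu1 : (p : ℤ) ∣ u 1 := by
        rw [hs 1]
        exact dvd_add (hB.mul_left _) (dvd_mul_right _ _)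
      have hb2 : (p : ℤ) ∣ ip1 v w := by
        rw [hvw]
        exact dvd_add (hb.mul_left _) ((hB.mul_right _).mul_left _)
      obtain ⟨t, y, ht⟩ := prop hp h2 h17 (hv ▸ hnp) hwn hb2 h0
      obtain ⟨ht0, -, hval2⟩ := val hp h2 hn hn2 hc' (s := t) (z := y) hv hww ht hT2
      rw [hval2]
      have hts : (p : ℤ) ∣ t - (-2) * s := by
        obtain ⟨i, hi⟩ := h0
        have h3 : (p : ℤ) ∣ (t - (-2) * s) * v i := by
          have e : (t - (-2) * s) * v i = (w i + 2 * u i) - p * (y i + 2 * z i) := by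
            rw [ht i, hs i]; ring
          rw [e]
          refine dvd_sub ?_ (dvd_mul_right _ _)
          fin_cases i
          · show (p : ℤ) ∣ w 0 + 2 * u 0
            rw [w0]
            have : -2 * u 0 + 2 * u 1 + 2 * u 0 = u 1 * 2 := by ring
            rw [this]; exact hu1.mul_right _
          · show (p : ℤ) ∣ w 1 + 2 * u 1
            rw [w1]
            have : -2 * u 1 + 4 * u 1 + 2 * u 1 = u 1 * 4 := by ring
            rw [this]; exact hu1.mul_right _
          · show (p : ℤ) ∣ w 2 + 2 * u 2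
            rw [w2]
            have : -2 * u 2 + u 1 + 2 * u 2 = u 1 := by ring
            rw [this]; exact hu1
        rcases pdvd hp h3 with h | h
        · exact h
        · exact absurd h hi
      rw [jc hts, jacobiSym.mul_left, m34 hp h2 h17 (hv ▸ hnp) h0 hB]
    · have hT2' : (p : ℤ) ∣ (n - ip1 v u + 17 * (v 1 * u 1)) - 17 * s * (v 1 * v 1) := by
        have : (n - ip1 v u + 17 * (v 1 * u 1)) - 17 * s * (v 1 * v 1) =
          n - ip1 v u + p * (17 * (v 1 * z 1)) := by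
          rw [hs 1]; ring
        rw [this]
        exact dvd_add (dvd_sub hnp hb) (dvd_mul_right _ _)
      have h3 : ¬ (p : ℤ) ∣ 17 * s * (v 1 * v 1) := by
        intro h
        rcases pdvd hp h with h | h
        · rcases pdvd hp h with h | h
          · exact hd h
          · exact hs0 h
        · rcases pdvd hp h with h | h
          · exact hB h
          · exact hB h
      have h4 : ¬ (p : ℤ) ∣ n - ip1 v u + 17 * (v 1 * u 1) := by
        intro h
        apply h3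
        have := dvd_sub h hT2'
        have e : n - ip1 v u + 17 * (v 1 * u 1) -
          (n - ip1 v u + 17 * (v 1 * u 1) - 17 * s * (v 1 * v 1)) = 17 * s * (v 1 * v 1) := by ring
        rwa [e] at this
      unfold sgp
      rw [if_neg h4, jc hT2', jacobiSym.mul_left, jacobiSym.mul_left 17 s,
        jacobiSym.mul_left (v 1), jsq hp hB, mul_one]
  · by_cases hB : (p : ℤ) ∣ n - ip1 v u + 17 * (v 1 * u 1)
    · have hb2 : (p : ℤ) ∣ ip1 v w := by
        have : ip1 v w = (n - ip1 v u + 17 * (v 1 * u 1)) * 2 - ((2 : ℕ) : ℤ) * n := by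
          linear_combination -hT2
        rw [this]
        exact dvd_sub (hB.mul_right _) (hnp.mul_left _)
      obtain ⟨t, y, ht⟩ := prop hp h2 h17 (hv ▸ hnp) hwn hb2 h0
      obtain ⟨ht0, -, hval2⟩ := val hp h2 hn hn2 hc' (s := t) (z := y) hv hww ht hT2
      rw [hval2]
      have e1 : ip1 v w = t * n + p * ip1 v y := by
        rw [← hv]
        unfold ip1
        rw [ht 0, ht 1, ht 2]
        ring
      have e2 : w 1 = 2 * u 1 := by rw [w1]; ring
      have h5 : (p : ℤ) ∣ 2 * (2 * (2 * T)) - 2 * 17 * t * (v 1 * v 1) := by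
        have e3 : 2 * (2 * (2 * T)) - 2 * 17 * t * (v 1 * v 1) =
          n * (4 - 2 * t) + p * (34 * (v 1 * y 1) - 2 * ip1 v y) := by
          have e4 : 2 * u 1 = t * v 1 + p * y 1 := by rw [← e2, ht 1]
          have e5 := hvw
          rw [e1] at e5
          linear_combination 4 * hT + 2 * e5 + 34 * v 1 * e4
        rw [e3]
        exact dvd_add (hnp.mul_right _) (dvd_mul_right _ _)
      have h6 : ¬ (p : ℤ) ∣ v 1 := by
        intro h
        have h7 : (p : ℤ) ∣ 2 * (2 * (2 * T)) := by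
          have := dvd_add h5 (((h.mul_right (v 1)).mul_left (2 * 17 * t)))
          have e : 2 * (2 * (2 * T)) - 2 * 17 * t * (v 1 * v 1) + 2 * 17 * t * (v 1 * v 1) =
            2 * (2 * (2 * T)) := by ring
          rwa [e] at this
        rcases pdvd hp h7 with h | h
        · exact hc h
        rcases pdvd hp h with h | h
        · exact hc h
        rcases pdvd hp h with h | h
        · exact hc h
        exact hA h
      have h7 := jc h5
      rw [jacobiSym.mul_left, jacobiSym.mul_left 2, jacobiSym.mul_left 2 T,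
        jacobiSym.mul_left, jacobiSym.mul_left (2 * 17), jacobiSym.mul_left 2 17,
        jacobiSym.mul_left (v 1), jsq hp h6] at h7
      have h8 := jsq hp hc
      have h9 := jsq hp hd
      unfold sgp
      rw [if_neg hA]
      linear_combination (-jacobiSym 2 p * jacobiSym 17 p) * h7 +
        (jacobiSym 17 p * jacobiSym T p * jacobiSym 2 p * jacobiSym 2 p +
          jacobiSym 17 p * jacobiSym T p - jacobiSym 17 p * jacobiSym 17 p * jacobiSym t p) * h8 -
        jacobiSym t p * h9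
    · unfold sgp
      rw [if_neg hA, if_neg hB]
      obtain ⟨D, hD⟩ : ∃ D : ℤ, D = u 0 * (v 1 - 4 * v 2) - u 1 * (v 0 - 2 * v 2) +
        u 2 * (4 * v 0 - 2 * v 1) := ⟨_, rfl⟩
      have h3 : 2 * (2 * (T * (n - ip1 v u + 17 * (v 1 * u 1)))) =
          17 * (D ^ 2 + n * (u 1 + v 1) ^ 2) := by
        have e : 2 * (ip1 v v * ip1 u u - ip1 v u ^ 2) =
          17 * D ^ 2 + 17 * (ip1 u u * v 1 ^ 2 + ip1 v v * u 1 ^ 2 - 2 * ip1 v u * (u 1 * v 1)) := by
          rw [hD]; unfold ip1; ring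
        rw [hv, hu] at e
        linear_combination 2 * (n - ip1 v u + 17 * (v 1 * u 1)) * hT + e
      have h4 : (p : ℤ) ∣ 2 * (2 * (T * (n - ip1 v u + 17 * (v 1 * u 1)))) - 17 * (D * D) := by
        rw [h3]
        have : 17 * (D ^ 2 + n * (u 1 + v 1) ^ 2) - 17 * (D * D) =
          n * (17 * (u 1 + v 1) ^ 2) := by ring
        rw [this]
        exact hnp.mul_right _
      have h5 : ¬ (p : ℤ) ∣ D := by
        intro h
        have h6 : (p : ℤ) ∣ 2 * (2 * (T * (n - ip1 v u + 17 * (v 1 * u 1)))) := by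
          rw [h3]
          have : 17 * (D ^ 2 + n * (u 1 + v 1) ^ 2) = D * (17 * D) + n * (17 * (u 1 + v 1) ^ 2) := by
            ring
          rw [this]
          exact dvd_add (h.mul_right _) (hnp.mul_right _)
        rcases pdvd hp h6 with h | h
        · exact hc h
        rcases pdvd hp h with h | h
        · exact hc h
        rcases pdvd hp h with h | h
        · exact hA h
        exact hB h
      have h7 := jc h4
      rw [jacobiSym.mul_left, jacobiSym.mul_left 2, jacobiSym.mul_left T,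
        jacobiSym.mul_left 17, jacobiSym.mul_left D, jsq hp h5] at h7
      have h8 := jsq hp hc
      have h9 := jsq hp hA
      linear_combination (jacobiSym T p) * h7 - (jacobiSym T p * jacobiSym T p *
        jacobiSym (n - ip1 v u + 17 * (v 1 * u 1)) p) * h8 -
        jacobiSym (n - ip1 v u + 17 * (v 1 * u 1)) p * h9

end Pool.Agent.N575.P17G
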