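import Mathlib
import Pool.Agent.N575.P17G.Loc
import Pool.Agent.N970.P17G.Two

/-!
# The Hecke relations at `2` with signs: even products
-/

set_option autoImplicit false
set_option linter.all false

namespace Pool.Agent.N575.P17G

open Finset
open Pool.Agent.N969.P15 (V3 ep2 c2 Ev)
open Pool.Agent.N972.P17 (ip1 ip2 vec1 vec2 G1 Cm Cp Cpe Cme)
open Pool.Agent.N969.P17G (ipx sgp sg2 t2 sgnE P11E P22E P12E S_HEGE CpE PrE)
open Pool.Agent.N575.P15 (ext3)
open Pool.Agent.N575.P17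
open Pool.Agent.N970.P17G (hs hs_sq_mul hs_mul hs_of sg2_ne sg2_zero t2_sq t2_pm KK KK_cocyc sg_KK
  sg_KK2 c2_mod c2_one sq8 bi_dbl bi_dbl' par1)
open Pool.Agent.N816.P17 (bi)
open Pool.Agent.N970.P17 (ip1_eq)

theorem sg2_four (k n : ℕ) (T : ℤ) : sg2 k n (4 * T) = sg2 k n T := by
  by_cases hT : T = 0
  · rw [hT]; rfl
  · have h4 : (4 : ℤ) * T = 2 ^ 2 * T := by norm_num
    rw [sg2_ne (mul_ne_zero (by norm_num) hT), sg2_ne hT, h4, hs_sq_mul n two_ne_zero hT]

theorem sgp_four {k n p : ℕ} (hp : p.Prime) (h2 : p ≠ 2) (T : ℤ) :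
    sgp k n p (4 * T) = sgp k n p T := by
  have hpp : Prime (p : ℤ) := Nat.prime_iff_prime_int.1 hp
  have hc : ¬ (p : ℤ) ∣ (2 : ℤ) := by exact_mod_cast ndvd hp Nat.prime_two h2
  have h4 : ∀ x : ℤ, (p : ℤ) ∣ 4 * x ↔ (p : ℤ) ∣ x := by
    intro x
    constructor
    · intro h
      have e : 4 * x = 2 * (2 * x) := by ring
      rw [e] at h
      rcases pdvd hp h with h | h
      · exact absurd h hc
      rcases pdvd hp h with h | h
      · exact absurd h hc
      exact h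
    · exact fun h => h.mul_left _
  have hJ : ∀ x : ℤ, jacobiSym (4 * x) p = jacobiSym x p := by
    intro x
    have e : 4 * x = 2 * 2 * x := by ring
    rw [e, jacobiSym.mul_left, jacobiSym.mul_left 2 2, jsq hp hc, one_mul]
  by_cases hT : (p : ℤ) ∣ T
  · obtain ⟨T', rfl⟩ := hT
    have e1 : 4 * ((p : ℤ) * T') / p = 4 * T' := by
      have : 4 * ((p : ℤ) * T') = p * (4 * T') := by ring
      rw [this, Int.mul_ediv_cancel_left _ hpp.ne_zero]
    have e2 : (p : ℤ) * T' / p = T' := Int.mul_ediv_cancel_left _ hpp.ne_zero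
    unfold sgp
    rw [if_pos (dvd_mul_of_dvd_right (dvd_mul_right _ _) _), if_pos (dvd_mul_right _ _), e1, e2]
    by_cases h : (p : ℤ) ∣ T'
    · rw [if_pos h, if_pos ((h4 _).2 h)]
    · rw [if_neg h, if_neg (fun h' => h ((h4 _).1 h')), mul_assoc, hJ]
  · unfold sgp
    rw [if_neg hT, if_neg (fun h' => hT ((h4 _).1 h')), hJ]

theorem sgnE_four (k A n : ℕ) (T : ℤ) : sgnE k A n (4 * T) = sgnE k A n T := by
  unfold sgnE
  refine prod_congr rfl fun p hp => ?_
  split_ifs with h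
  · exact sg2_four k n T
  · exact sgp_four (Nat.prime_of_mem_primeFactors hp) h T

/-- if there is a vector orthogonal to the axis then `(-2, -n)_2 = 1` -/
theorem ev0 {n : ℕ} (hn : Ev n) {u : V3} (hu : ip1 u u = n) (h1 : u 1 = 0) :
    t2 n * c2 n (-1) = 1 := by
  obtain ⟨m, rfl, hsq, hm⟩ := hn
  unfold ip1 at hu
  rw [h1] at hu
  push_cast at hu
  have e : 7 * u 0 ^ 2 + 20 * u 2 ^ 2 - 4 * (u 0 * u 2) = 4 * m := by linear_combination hu
  rcases Int.emod_two_eq_zero_or_one (u 0) with h0 | h0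
  swap
  · obtain ⟨r, hr⟩ := sq8 h0
    generalize u 2 ^ 2 = x at e
    generalize u 0 * u 2 = y at e
    omega
  obtain ⟨a, ha⟩ : ∃ a, u 0 = 2 * a := ⟨u 0 / 2, by omega⟩
  rw [ha] at e
  have e1 : (m : ℤ) = 7 * a ^ 2 + 5 * u 2 ^ 2 - 2 * (a * u 2) := by linarith
  generalize u 2 = b at e1
  clear e hu ha h0 h1
  rcases Int.emod_two_eq_zero_or_one a with h0 | h0 <;>
    rcases Int.emod_two_eq_zero_or_one b with h1 | h1
  · obtain ⟨x, rfl⟩ : ∃ x, a = 2 * x := ⟨a / 2, by omega⟩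
    obtain ⟨y, rfl⟩ : ∃ y, b = 2 * y := ⟨b / 2, by omega⟩
    have e2 : (m : ℤ) = 4 * (7 * x ^ 2 + 5 * y ^ 2 - 2 * (x * y)) := by rw [e1]; ring
    generalize 7 * x ^ 2 + 5 * y ^ 2 - 2 * (x * y) = z at e2
    omega
  · obtain ⟨x, rfl⟩ : ∃ x, a = 2 * x := ⟨a / 2, by omega⟩
    obtain ⟨r, hr⟩ := sq8 h1
    obtain ⟨y, rfl⟩ : ∃ y, b = 2 * y + 1 := ⟨b / 2, by omega⟩
    obtain ⟨w, hw⟩ := Int.even_mul_succ_self (x - 1)
    have e2 : (m : ℤ) = 8 * (5 * r + w - x * y) + 24 * x ^ 2 + 5 := by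
      rw [e1]
      linear_combination 5 * hr + 4 * hw
    have e3 : (m : ℤ) = 8 * (5 * r + w - x * y + 3 * x ^ 2) + 5 := by rw [e2]; ring
    generalize 5 * r + w - x * y + 3 * x ^ 2 = z at e3
    unfold t2 c2
    rw [if_pos (by omega), if_neg (by omega), if_neg (by norm_num), if_pos (by omega),
      if_neg (by norm_num)]
    norm_num
  · obtain ⟨r, hr⟩ := sq8 h0
    obtain ⟨y, rfl⟩ : ∃ y, b = 2 * y := ⟨b / 2, by omega⟩
    have e2 : (m : ℤ) = 4 * (14 * r + 5 * y ^ 2 - a * y) + 7 := by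
      rw [e1]
      linear_combination 7 * hr
    generalize 14 * r + 5 * y ^ 2 - a * y = z at e2
    omega
  · -- both odd
    have h16 : (m : ℤ) % 16 = 10 ∨ (m : ℤ) % 16 = 14 := by
      have key : ∀ x y : Fin 16, x.val % 2 = 1 → y.val % 2 = 1 →
          ((7 * (x.val * x.val) + 5 * (y.val * y.val) + 14 * (x.val * y.val)) % 16 = 10 ∨
          (7 * (x.val * x.val) + 5 * (y.val * y.val) + 14 * (x.val * y.val)) % 16 = 14) := by
        decide
      obtain ⟨x, i, hx⟩ : ∃ (x : Fin 16) (i : ℤ), a = x.val + 16 * i :=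
        ⟨⟨(a % 16).toNat, by omega⟩, a / 16, by
          show a = ((a % 16).toNat : ℤ) + 16 * (a / 16); omega⟩
      obtain ⟨y, j, hy⟩ : ∃ (x : Fin 16) (i : ℤ), b = x.val + 16 * i :=
        ⟨⟨(b % 16).toNat, by omega⟩, b / 16, by
          show b = ((b % 16).toNat : ℤ) + 16 * (b / 16); omega⟩
      have hk := key x y (by omega) (by omega)
      have e2 : (m : ℤ) = ((7 * (x.val * x.val) + 5 * (y.val * y.val) + 14 * (x.val * y.val) : ℕ) : ℤ) +
          16 * (7 * (2 * (x.val * i) + 16 * i * i) + 5 * (2 * (y.val * j) + 16 * j * j) -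
            2 * (x.val * j + i * y.val + 16 * i * j) - x.val * y.val) := by
        rw [e1, hx, hy]; push_cast; ring
      generalize 7 * (2 * ((x.val : ℤ) * i) + 16 * i * i) + 5 * (2 * ((y.val : ℤ) * j) + 16 * j * j) -
            2 * ((x.val : ℤ) * j + i * y.val + 16 * i * j) - (x.val : ℤ) * y.val = z at e2
      generalize 7 * (x.val * x.val) + 5 * (y.val * y.val) + 14 * (x.val * y.val) = q at hk e2
      omega
    unfold t2 c2
    rw [if_neg (by omega : ¬ 4 * m % 8 = 4), if_neg (by norm_num : ¬ (-1 : ℤ) % 2 = 0),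
      if_neg (by omega : ¬ 4 * m % 16 = 4)]
    rcases h16 with h | h
    · rw [if_neg (by omega), if_pos (by omega : 4 * m % 32 = 8), if_neg (by norm_num)]
      norm_num
    · rw [if_pos (by omega), if_neg (by omega : ¬ 4 * m % 32 = 8), if_pos (by norm_num)]
      norm_num

/-- the sign of the neighbour at `2` -/
theorem H12 {n : ℕ} (hn : Ev n) {v u : V3} (hv : v ∈ vec1 n) (hu : u ∈ vec1 n) :
    sg2 2 n (n - ip1 v u + 17 * (v 1 * u 1)) = sg2 1 n ((n + ip1 v u) / 2) := by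
  have h4 : 4 ∣ n := by
    obtain ⟨m, rfl, _⟩ := hn
    exact ⟨m, rfl⟩
  have hvn := (mem_vec1 n v).1 hv
  have hun := (mem_vec1 n u).1 hu
  have hww : ip1 (m411 u) (m411 u) = 4 * n := by
    rw [← hun]
    simp [m411, ip1]
    ring
  have ev : bi G1 (Pool.Agent.N970.P17G.dbl v) (Pool.Agent.N970.P17G.dbl v) = 4 * n := by
    rw [bi_dbl, bi_dbl', ← ip1_eq, hvn]; ring
  have eu : bi G1 (Pool.Agent.N970.P17G.dbl u) (Pool.Agent.N970.P17G.dbl u) = 4 * n := by
    rw [bi_dbl, bi_dbl', ← ip1_eq, hun]; ring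
  have ew : bi G1 (m411 u) (m411 u) = 4 * n := by rw [← ip1_eq, hww]
  have hT := par1 h4 (w := u) hv
  rw [sg_KK (x := Pool.Agent.N970.P17G.dbl v) (y := Pool.Agent.N970.P17G.dbl u)
    (by rw [bi_dbl, bi_dbl', ← ip1_eq]; linarith), ← sg2_four 2 n,
    sg_KK2 (x := Pool.Agent.N970.P17G.dbl v) (y := m411 u)
    (by rw [bi_dbl, ← ip1_eq, ip_411]; ring)]
  have hc := KK_cocyc hn eu ev ew
  rw [← hc, Pool.Agent.N970.P17G.KK_comm n (Pool.Agent.N970.P17G.dbl u)
    (Pool.Agent.N970.P17G.dbl v)]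
  have hK : KK n (Pool.Agent.N970.P17G.dbl u) (m411 u) = t2 n := by
    have e : 4 * (n : ℤ) + bi G1 (Pool.Agent.N970.P17G.dbl u) (m411 u) = 68 * u 1 ^ 2 := by
      rw [bi_dbl, ← ip1_eq, ip_411, hun]; ring
    unfold KK
    rw [e]
    by_cases h0 : u 1 = 0
    · rw [if_pos (by rw [h0]; ring)]
      have := ev0 hn hun h0
      rcases t2_pm n with h | h <;> rw [h] at this ⊢ <;> linarith
    · rw [if_neg (mul_ne_zero (by norm_num) (pow_ne_zero 2 h0))]
      have e3 : 68 * u 1 ^ 2 = (2 * u 1) ^ 2 * 17 := by ring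
      have e4 : hs n 17 = 1 := by
        have := hs_of n (u := 17) (by norm_num) 0
        rw [pow_zero, one_mul, pow_zero, mul_one] at this
        rw [this, c2_mod n (w := 1) (by norm_num), c2_one]
      rw [e3, hs_sq_mul n (mul_ne_zero two_ne_zero h0) (by norm_num), e4, mul_one]
  rw [hK]
  linear_combination KK n (Pool.Agent.N970.P17G.dbl v) (Pool.Agent.N970.P17G.dbl u) * t2_sq n

end Pool.Agent.N575.P17G
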