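import Mathlib
import Pool.Agent.N575.P17G.HEGE

/-!
# The Hecke relations at `2` with signs: even products, assembly
-/

set_option autoImplicit false
set_option linter.all false

namespace Pool.Agent.N575.P17G

open Finset
open Pool.Agent.N969.P15 (V3 ep2 c2 Ev)
open Pool.Agent.N972.P17 (ip1 ip2 vec1 vec2 G1 Cm Cp Cpe Cme)
open Pool.Agent.N969.P17G (ipx sgp sg2 t2 sgnE P11E P22E P12E S_HEGE CpE PrE)
open Pool.Agent.N575.P15 (ext3)
open Pool.Agent.N575.P17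
open Pool.Agent.N970.P17G (par1)

/-- the product is an even fundamental discriminant -/
theorem PrE_Ev {A m : ℕ} (h : PrE A m) : Ev (A * m) := by
  obtain ⟨h1, hco⟩ := h
  rcases h1 with ⟨⟨M, rfl, hM, hM4, _⟩, hm, hm4, _⟩ | ⟨⟨hA, hA4, _⟩, ⟨m0, rfl, hm, hm4⟩, _⟩
  · have hc : Nat.Coprime M m := Nat.Coprime.coprime_dvd_left (dvd_mul_left _ _) hco
    refine ⟨M * m, by ring, (Nat.squarefree_mul hc).2 ⟨hM, hm⟩, ?_⟩
    rw [Nat.mul_mod, hm4]
    rcases hM4 with h | h <;> rw [h] <;> norm_num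
  · have hc : Nat.Coprime A m0 := Nat.Coprime.coprime_dvd_right (dvd_mul_left _ _) hco
    refine ⟨A * m0, by ring, (Nat.squarefree_mul hc).2 ⟨hA, hm⟩, ?_⟩
    rw [Nat.mul_mod, hA4]
    rcases hm4 with h | h <;> rw [h] <;> norm_num

theorem PrE_17 {A m : ℕ} (h : PrE A m) : ¬ 17 ∣ A := by
  obtain ⟨h1, hco⟩ := h
  have key : ∀ x : ℕ, jacobiSym x 17 = 1 → ¬ 17 ∣ x := by
    intro x hx hd
    have : jacobiSym (x : ℤ) 17 = 0 := by
      rw [jacobiSym.mod_left]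
      have : (x : ℤ) % ((17 : ℕ) : ℤ) = 0 := Int.emod_eq_zero_of_dvd (by exact_mod_cast hd)
      rw [this]
      norm_num
    rw [this] at hx
    norm_num at hx
  rcases h1 with ⟨⟨M, rfl, hM, hM4, hJ⟩, _⟩ | ⟨⟨hA, hA4, hJ⟩, _⟩
  · intro hd
    have := key M hJ
    rcases (Nat.Prime.dvd_mul (by norm_num)).1 hd with h | h
    · norm_num at h
    · exact this h
  · exact key A hJ

theorem prodJ {S : ℕ} (hS : Squarefree S) :
    ∏ p ∈ S.primeFactors, jacobiSym (p : ℕ) 17 = jacobiSym S 17 := by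
  have : ∀ T : Finset ℕ, ∏ p ∈ T, jacobiSym ((p : ℕ) : ℤ) 17 = jacobiSym ((∏ p ∈ T, p : ℕ) : ℤ) 17 := by
    intro T
    induction T using Finset.induction_on with
    | empty => simp
    | insert a T ha ih =>
      rw [prod_insert ha, prod_insert ha, ih]
      push_cast
      rw [jacobiSym.mul_left]
  rw [this, Nat.prod_primeFactors_of_squarefree hS]

theorem c17 {A m : ℕ} (h : PrE A m) :
    ∏ p ∈ A.primeFactors, (if p = 2 then (1 : ℤ) else jacobiSym 17 p) = 1 := by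
  have e1 : ∏ p ∈ A.primeFactors, (if p = 2 then (1 : ℤ) else jacobiSym 17 p) =
      ∏ p ∈ A.primeFactors, jacobiSym (p : ℕ) 17 := by
    refine prod_congr rfl fun p hp => ?_
    have hpr := Nat.prime_of_mem_primeFactors hp
    split_ifs with h2
    · rw [h2]; norm_num
    · have h17 : (17 : ℤ) = ((17 : ℕ) : ℤ) := by norm_num
      rw [h17]
      exact jacobiSym.quadratic_reciprocity_one_mod_four (by norm_num) (hpr.odd_of_ne_two h2)
  rw [e1]
  obtain ⟨h1, hco⟩ := h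
  rcases h1 with ⟨⟨M, rfl, hM, hM4, hJ⟩, _⟩ | ⟨⟨hA, hA4, hJ⟩, _⟩
  · have e2 : (4 * M).primeFactors = insert 2 M.primeFactors := by
      rw [Nat.primeFactors_mul (by norm_num) hM.ne_zero]
      have : (4 : ℕ).primeFactors = {2} := by
        have : (4 : ℕ) = 2 ^ 2 := by norm_num
        rw [this, Nat.primeFactors_pow _ (by norm_num), Nat.Prime.primeFactors Nat.prime_two]
      rw [this]
      rfl
    rw [e2]
    by_cases h2 : 2 ∈ M.primeFactors
    · rw [insert_eq_of_mem h2, prodJ hM, hJ]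
    · rw [prod_insert h2, prodJ hM, hJ]
      norm_num
  · rw [prodJ hA, hJ]

/-- the pointwise relation -/
theorem H1E {A m : ℕ} (h : PrE A m) {v u : V3} (hv : v ∈ vec1 (A * m : ℕ))
    (hu : u ∈ vec1 (A * m : ℕ)) :
    sgnE 2 A (A * m) ((A * m : ℕ) - ip1 v u + 17 * (v 1 * u 1)) =
      sgnE 1 A (A * m) (((A * m : ℕ) + ip1 v u) / 2) := by
  have hE := PrE_Ev h
  have h17 := PrE_17 h
  have h4 : 4 ∣ A * m := by
    obtain ⟨x, hx, _⟩ := hE
    exact ⟨x, hx⟩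
  have e : sgnE 2 A (A * m) ((A * m : ℕ) - ip1 v u + 17 * (v 1 * u 1)) =
      (∏ p ∈ A.primeFactors, (if p = 2 then (1 : ℤ) else jacobiSym 17 p)) *
      sgnE 1 A (A * m) (((A * m : ℕ) + ip1 v u) / 2) := by
    unfold sgnE
    rw [← prod_mul_distrib]
    refine prod_congr rfl fun p hp => ?_
    have hpr := Nat.prime_of_mem_primeFactors hp
    have hpA := Nat.dvd_of_mem_primeFactors hp
    split_ifs with h2
    · rw [H12 hE hv hu, one_mul]
    · refine H1p hpr h2 ?_ (hpA.mul_right _) ?_ ((mem_vec1 _ v).1 hv) ((mem_vec1 _ u).1 hu)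
        (par1 h4 hv)
      · rintro rfl
        exact h17 hpA
      · intro hd
        obtain ⟨x, hx, hsq, _⟩ := hE
        rw [hx] at hd
        have hc : Nat.Coprime (p ^ 2) 4 := by
          have : (4 : ℕ) = 2 ^ 2 := by norm_num
          rw [this]
          exact Nat.Coprime.pow 2 2 ((Nat.coprime_primes hpr Nat.prime_two).2 h2)
        have h5 := hc.dvd_of_dvd_mul_left hd
        rw [sq] at h5
        have := hsq p h5
        exact hpr.one_lt.ne' (Nat.isUnit_iff.1 this)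
  rw [e, c17 h, one_mul]

theorem ipx_even (v w : V3) : ∃ z : ℤ, ipx v w = 2 * z :=
  ⟨v 0 * (2 * w 0 - 12 * w 1 + 5 * w 2) + v 1 * (4 * w 0 + 10 * w 1 - 7 * w 2) +
    v 2 * (-3 * w 0 + w 1 + 18 * w 2), by unfold ipx; ring⟩

theorem fx (A n : ℕ) (v w : V3) :
    sgnE 2 A n (2 * (2 * n + ipx v w)) = sgnE 2 A n ((2 * n + ipx v w) / 2) := by
  obtain ⟨z, hz⟩ := ipx_even v w
  have e1 : (2 * (n : ℤ) + ipx v w) / 2 = n + z := by
    rw [hz]
    omega
  have e2 : 2 * (2 * (n : ℤ) + ipx v w) = 4 * (n + z) := by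
    rw [hz]
    ring
  rw [e1, e2, sgnE_four]

/-- HEGE -/
theorem t_HEGE : S_HEGE := by
  intro A m h
  have hE := PrE_Ev h
  have h16 : ((A * m : ℕ) : ℤ) % 16 = 4 ∨ ((A * m : ℕ) : ℤ) % 16 = 8 := by
    obtain ⟨x, hx, _, hx4⟩ := hE
    rw [hx]
    push_cast
    omega
  have hr := red_1 (n := ((A * m : ℕ) : ℤ)) (sgnE 1 A (A * m)) (sgnE 2 A (A * m)) 1
    (fun v hv u hu => by rw [one_mul]; exact H1E h hv hu)
  rw [one_mul] at hr
  generalize hn : A * m = n at *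
  have ec : ((2 ^ 2 * n : ℕ) : ℤ) = 4 * (n : ℤ) := by push_cast; ring
  have e1 : P11E 1 A n = ∑ v ∈ vec1 n, ∑ u ∈ vec1 n, sgnE 1 A n ((n + ip1 v u) / 2) := by
    unfold P11E
    simp only [one_pow, one_mul, Nat.cast_one]
  have e2 : P11E 2 A n = ∑ v ∈ vec1 n, ∑ w ∈ vec1 (4 * n), sgnE 2 A n ((2 * n + ip1 v w) / 2) := by
    unfold P11E
    rw [ec]
    rfl
  have e3 : P22E 2 A n = ∑ v ∈ vec2 n, ∑ w ∈ vec2 (4 * n), sgnE 2 A n ((2 * n + ip2 v w) / 2) := by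
    unfold P22E
    rw [ec]
    rfl
  have e4 : P12E A n = ∑ v ∈ vec1 n, ∑ w ∈ vec2 n, sgnE 2 A n ((2 * n + ipx v w) / 2) := by
    unfold P12E
    exact sum_congr rfl fun v _ => sum_congr rfl fun w _ => fx A n v w
  constructor
  · rw [e2, e1]
    have e5 : ∀ v : V3, ∑ w ∈ vec1 (4 * (n : ℤ)), sgnE 2 A n ((2 * n + ip1 v w) / 2) =
        ∑ u ∈ vec1 n, sgnE 2 A n ((2 * n + ip1 v (m410 u)) / 2) +
        ∑ u ∈ vec1 n, sgnE 2 A n ((2 * n + ip1 v (m411 u)) / 2) +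
        ∑ u ∈ vec2 n, sgnE 2 A n ((2 * n + ip1 v (m412 u)) / 2) := fun v =>
      (w4e_1 h16 (fun w => sgnE 2 A n ((2 * n + ip1 v w) / 2))).symm
    rw [sum_congr rfl fun v _ => e5 v, sum_add_distrib, sum_add_distrib, hr.1, hr.2, e4]
    have e6 : ∑ v ∈ vec1 n, ∑ u ∈ vec2 n, sgnE 2 A n ((2 * n + ip1 v (m412 u)) / 2) =
        ∑ v ∈ vec1 n, ∑ w ∈ vec2 n, sgnE 2 A n ((2 * n + ipx v w) / 2) := by
      refine sum_congr rfl fun v _ => ?_
      rw [← sum_de n (fun w => sgnE 2 A n ((2 * n + ipx v w) / 2))]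
      exact sum_congr rfl fun w _ => by rw [ip_412]
    rw [e6]
    ring
  · rw [e3, e4]
    have e5 : ∀ v : V3, ∑ w ∈ vec2 (4 * (n : ℤ)), sgnE 2 A n ((2 * n + ip2 v w) / 2) =
        ∑ u ∈ vec1 n, sgnE 2 A n ((2 * n + ip2 v (m420 u)) / 2) +
        ∑ u ∈ vec1 n, sgnE 2 A n ((2 * n + ip2 v (m421 u)) / 2) +
        ∑ u ∈ vec1 n, sgnE 2 A n ((2 * n + ip2 v (m422 u)) / 2) := fun v =>
      (w4e_2 h16 (fun w => sgnE 2 A n ((2 * n + ip2 v w) / 2))).symm
    rw [sum_congr rfl fun v _ => e5 v, sum_add_distrib, sum_add_distrib]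
    simp only [ip_420, ip_421, ip_422]
    rw [sum_ga n (fun v => ∑ u ∈ vec1 n, sgnE 2 A n ((2 * n + ipx u v) / 2)),
      sum_de n (fun v => ∑ u ∈ vec1 n, sgnE 2 A n ((2 * n + ipx u v) / 2)), sum_comm]
    ring

end Pool.Agent.N575.P17G
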